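import Pool.Agent.H65.CZF.TA
import Pool.Agent.H22.CRG.LE1

/-!
# Weighted mean squares of averages over a circle
-/

set_option autoImplicit false

open NumberField NumberField.InfinitePlace Complex Filter Topology MeasureTheory Set

namespace Pool.Agent.H95.CZF

open Pool.Agent.H28.RC Pool.Agent.H37.CV Pool.Agent.H33.HH Pool.Agent.H33.HC
open Pool.Agent.H65.CZF
open Pool.Agent.H65.CRZ (zc St SZ Zx cA Bm b0 cc)
open Pool.Agent.H65.CRG (LFg VQ cQ kn pm qm CZ)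
open Pool.Agent.H22.CRG (ker zc' zc'_ne norm_zc' cont_zc' cont_ker norm_ker_le cau cau1 ker_kn
  zc'_eq)

/-- the square of a mean value is at most the mean value of the square -/
theorem mean_sq (f : ℝ → ℂ) (hf : Continuous f) :
    ‖1 / (2 * Real.pi : ℂ) * ∫ φ in (0 : ℝ)..(2 * Real.pi), f φ‖ ^ 2 ≤
      1 / (2 * Real.pi) * ∫ φ in (0 : ℝ)..(2 * Real.pi), ‖f φ‖ ^ 2 := by
  have hpi := Real.two_pi_pos
  set a : ℝ := 1 / (2 * Real.pi) * ∫ φ in (0 : ℝ)..(2 * Real.pi), ‖f φ‖ with ha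
  have h1 : ‖1 / (2 * Real.pi : ℂ) * ∫ φ in (0 : ℝ)..(2 * Real.pi), f φ‖ ≤ a := by
    rw [norm_mul]
    have e1 : ‖(1 / (2 * Real.pi : ℂ))‖ = 1 / (2 * Real.pi) := by
      rw [norm_div, norm_one, norm_mul, Complex.norm_real, Complex.norm_ofNat, Real.norm_eq_abs,
        abs_of_pos Real.pi_pos]
    rw [e1]
    exact mul_le_mul_of_nonneg_left
      (intervalIntegral.norm_integral_le_integral_norm hpi.le) (by positivity)
  have hc : Continuous fun φ => ‖f φ‖ := hf.norm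
  have h2 : 0 ≤ ∫ φ in (0 : ℝ)..(2 * Real.pi), (‖f φ‖ - a) ^ 2 :=
    intervalIntegral.integral_nonneg hpi.le fun _ _ => sq_nonneg _
  have h3 : ∫ φ in (0 : ℝ)..(2 * Real.pi), (‖f φ‖ - a) ^ 2 =
      (∫ φ in (0 : ℝ)..(2 * Real.pi), ‖f φ‖ ^ 2) - 2 * Real.pi * a ^ 2 := by
    have e2 : ∀ φ : ℝ, (‖f φ‖ - a) ^ 2 = ‖f φ‖ ^ 2 - 2 * a * ‖f φ‖ + a ^ 2 := fun φ => by ring
    simp only [e2]
    rw [intervalIntegral.integral_add, intervalIntegral.integral_sub,
      intervalIntegral.integral_const_mul, intervalIntegral.integral_const]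
    · have e3 : ∫ φ in (0 : ℝ)..(2 * Real.pi), ‖f φ‖ = 2 * Real.pi * a := by
        rw [ha]; field_simp
      rw [e3]
      simp only [sub_zero, smul_eq_mul]
      ring
    · exact (hc.pow 2).intervalIntegrable _ _
    · exact (continuous_const.mul hc).intervalIntegrable _ _
    · exact ((hc.pow 2).sub (continuous_const.mul hc)).intervalIntegrable _ _
    · exact continuous_const.intervalIntegrable _ _
  rw [h3] at h2
  have h4 : a ^ 2 ≤ 1 / (2 * Real.pi) * ∫ φ in (0 : ℝ)..(2 * Real.pi), ‖f φ‖ ^ 2 := by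
    rw [one_div, ← div_eq_inv_mul, le_div_iff₀ hpi]
    linarith
  exact (pow_le_pow_left₀ (norm_nonneg _) h1 2).trans h4

/-- mean squares of averages over the circle -/
theorem msq {ι : Type} [Fintype ι] (w : ι → ℝ) (F : ι → ℝ → ℂ) (G : ι → ℝ → ℂ) {B M : ℝ}
    (hw : ∀ i, 0 ≤ w i) (hF : ∀ i, Continuous (F i))
    (hb : ∀ i φ, ‖F i φ‖ ≤ B * ‖G i φ‖) (hM : ∀ φ, ∑ i, w i * ‖G i φ‖ ^ 2 ≤ M) (_hB : 0 ≤ B) :
    ∑ i, w i * ‖1 / (2 * Real.pi : ℂ) * ∫ φ in (0 : ℝ)..(2 * Real.pi), F i φ‖ ^ 2 ≤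
      B ^ 2 * M := by
  have hpi := Real.two_pi_pos
  calc ∑ i, w i * ‖1 / (2 * Real.pi : ℂ) * ∫ φ in (0 : ℝ)..(2 * Real.pi), F i φ‖ ^ 2 ≤
      ∑ i, w i * (1 / (2 * Real.pi) * ∫ φ in (0 : ℝ)..(2 * Real.pi), ‖F i φ‖ ^ 2) :=
        Finset.sum_le_sum fun i _ => mul_le_mul_of_nonneg_left (mean_sq _ (hF i)) (hw i)
    _ = 1 / (2 * Real.pi) * ∫ φ in (0 : ℝ)..(2 * Real.pi), ∑ i, w i * ‖F i φ‖ ^ 2 := by
        rw [intervalIntegral.integral_finsetSum, Finset.mul_sum]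
        · refine Finset.sum_congr rfl fun i _ => ?_
          rw [intervalIntegral.integral_const_mul]
          ring
        · intro i _
          exact (continuous_const.mul ((hF i).norm.pow 2)).intervalIntegrable _ _
    _ ≤ 1 / (2 * Real.pi) * ∫ φ in (0 : ℝ)..(2 * Real.pi), B ^ 2 * M := by
        apply mul_le_mul_of_nonneg_left _ (by positivity)
        apply intervalIntegral.integral_mono_on hpi.le
        · exact (continuous_finsetSum _ fun i _ =>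
            continuous_const.mul ((hF i).norm.pow 2)).intervalIntegrable _ _
        · exact continuous_const.intervalIntegrable _ _
        · intro φ _
          calc ∑ i, w i * ‖F i φ‖ ^ 2 ≤ ∑ i, B ^ 2 * (w i * ‖G i φ‖ ^ 2) := by
                refine Finset.sum_le_sum fun i _ => ?_
                have h1 := pow_le_pow_left₀ (norm_nonneg _) (hb i φ) 2
                rw [mul_pow] at h1
                have h2 := mul_le_mul_of_nonneg_left h1 (hw i)
                linarith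
            _ = B ^ 2 * ∑ i, w i * ‖G i φ‖ ^ 2 := by rw [Finset.mul_sum]
            _ ≤ B ^ 2 * M := mul_le_mul_of_nonneg_left (hM φ) (sq_nonneg _)
    _ = B ^ 2 * M := by
        rw [intervalIntegral.integral_const]
        simp only [sub_zero, smul_eq_mul]
        field_simp

/-- the continuation is entire -/
theorem zx_ent (h : T_ENA) {K : Type} [Field K] [NumberField K] [IQ K] (χ : RCC K)
    (hχ : χ.f ≠ ⊤) : IsEnt χ (Zx χ) := by
  obtain ⟨Z, _, _, hZ, _⟩ := h K χ (Or.inl hχ)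
  have hex : ∃ Z, IsEnt χ Z := ⟨Z, hZ⟩
  have : Zx χ = hex.choose := by
    unfold Pool.Agent.H65.CRZ.Zx
    rw [dif_pos hex]
  rw [this]
  exact hex.choose_spec

/-- real parts near the left line -/
theorem re_ge {R Q : ℝ} (hR : 0 < R) (hQ : 6 * R ≤ Real.log Q) (u : ℝ) (a : ℂ)
    (ha : ‖a‖ ≤ R / (2 * Real.log Q)) :
    1 / 4 ≤ ((sgm R Q : ℂ) + u * I + a).re ∧ ((sgm R Q : ℂ) + u * I + a).re ≤ 3 / 4 := by
  have hl0 : 0 < Real.log Q := by linarith
  have h4 := abs_le.1 ((Complex.abs_re_le_norm a).trans ha)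
  have h5 : ((sgm R Q : ℂ) + u * I + a).re = sgm R Q + a.re := by
    simp
  rw [h5]
  unfold sgm
  have h6 : R / Real.log Q ≤ 1 / 6 := by
    rw [div_le_iff₀ hl0]; linarith
  have h6' : 0 < R / Real.log Q := by positivity
  have h7 : R / (2 * Real.log Q) ≤ 1 / 12 := by
    rw [div_le_iff₀ (by positivity)]; linarith
  constructor <;> linarith [h4.1, h4.2]

/-- the points of the small circle -/
theorem norm_circ {R Q : ℝ} (hR : 0 < R) (hQ : 0 < Real.log Q) (φ : ℝ) :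
    ‖zc' (R / 2) φ / (Real.log Q : ℂ)‖ ≤ R / (2 * Real.log Q) := by
  rw [norm_div, norm_zc' (by positivity), Complex.norm_real, Real.norm_eq_abs, abs_of_pos hQ,
    div_div]

/-- the bound of `T_MSF` on `|u| ≤ T` -/
theorem msf_T (h1 : T_MSF) (K : Type) [Field K] [NumberField K] [IQ K] (P : ℝ) (W : ℝ → ℝ)
    (k : Ideal (𝓞 K)) (θ e R : ℝ) (hSP : (SP K P).Nonempty) (hW : IsW W) (hW1 : 0 < W1 W)
    (hk : Sm' P k) (hP : Par θ e) (hR : 0 < R) : ∃ C : ℝ, 0 < C ∧ ∀ T : ℝ, 0 < T → ∃ Q₀ : ℝ,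
    2 ≤ Q₀ ∧ ∀ Q : ℝ, Q₀ ≤ Q → ∀ (a : ℂ) (u : ℝ), |u| ≤ T → ‖a‖ ≤ R / (2 * Real.log Q) →
    FW P Q W k (fun χ => ‖Zx χ (sgm R Q + u * I + a) * mlz P (Q ^ θ) χ.ψ (1 / 2 + u * I)‖ ^ 2) ≤
      C * Q ^ 2 := by
  obtain ⟨C, B, hC, hB, h⟩ := h1 K P W k θ e R hSP hW hW1 hk hP hR
  refine ⟨C + 1, by linarith, fun T hT => ?_⟩
  have hTB : 0 < (1 + T) ^ B := Real.rpow_pos_of_pos (by linarith) _
  obtain ⟨Q₀, hQ₀, hQ⟩ := h (1 / (1 + T) ^ B) (by positivity)
  refine ⟨Q₀, hQ₀, fun Q hQQ a u hu ha => (hQ Q hQQ a u ha).trans ?_⟩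
  apply mul_le_mul_of_nonneg_right _ (sq_nonneg _)
  have h2 : (1 + |u|) ^ B ≤ (1 + T) ^ B :=
    Real.rpow_le_rpow (by positivity) (by linarith) hB
  have h3 : 1 / (1 + T) ^ B * (1 + |u|) ^ B ≤ 1 := by
    rw [div_mul_eq_mul_div, one_mul, div_le_one hTB]
    exact h2
  linarith

theorem pf_DER (h1 : T_MSF) (h2 : T_FAM) (h3 : T_ENA) : T_DER := by
  intro K _ _ _ P W k θ e R hSP hW hW1 hk hP hR i
  obtain ⟨C, hC, hM⟩ := msf_T h1 K P W k θ e R hSP hW hW1 hk hP hR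
  obtain ⟨κ₁, Q₁, hκ, hQ₁, hF⟩ := h2 K P W k hW hk
  refine ⟨((i.factorial : ℝ) / (R / 2) ^ i) ^ 2 * C, by positivity, ?_⟩
  intro T hT
  obtain ⟨Q₀, hQ₀, hQ⟩ := hM T hT
  refine ⟨max Q₀ (max Q₁ (Real.exp 1)), hQ₀.trans (le_max_left _ _), ?_⟩
  intro Q hQQ t ht
  have hQa : Q₀ ≤ Q := (le_max_left _ _).trans hQQ
  have hQb : Q₁ ≤ Q := (le_max_left _ _).trans ((le_max_right _ _).trans hQQ)
  have hQc : Real.exp 1 ≤ Q := (le_max_right _ _).trans ((le_max_right _ _).trans hQQ)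
  have hl1 : 1 ≤ Real.log Q := by
    rw [Real.le_log_iff_exp_le (by linarith)]
    exact hQc
  set L : ℝ := Real.log Q with hL
  have hL0 : 0 < L := by linarith
  have hr : 0 < R / 2 := by positivity
  obtain ⟨ι, hι, w, x, _, hwx, _, hFW⟩ := (hF Q hQb).2
  rw [hFW]
  have hZ : ∀ j : ι, Differentiable ℂ (Zx (x j)) := fun j =>
    (zx_ent h3 (x j) (hwx j).2.2.1).1
  -- the functions
  set G : ι → ℝ → ℂ := fun j φ => Zx (x j) (sgm R Q + t * I + zc' (R / 2) φ / (L : ℂ)) *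
    mlz P (Q ^ θ) (x j).ψ (1 / 2 + t * I) with hG
  set F : ι → ℝ → ℂ := fun j φ => ((i.factorial : ℂ) * (L : ℂ) ^ i / zc' (R / 2) φ ^ i) *
    G j φ with hFd
  have hGc : ∀ j, Continuous (G j) := by
    intro j
    rw [hG]
    exact ((hZ j).continuous.comp (continuous_const.add
      ((cont_zc' _).div_const _))).mul continuous_const
  have hFc : ∀ j, Continuous (F j) := by
    intro j
    rw [hFd]
    exact (continuous_const.div ((cont_zc' _).pow i)
      fun φ => pow_ne_zero _ (zc'_ne hr φ)).mul (hGc j)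
  have hval : ∀ j, iteratedDeriv i (Zx (x j)) (sgm R Q + t * I) *
      mlz P (Q ^ θ) (x j).ψ (1 / 2 + t * I) =
      1 / (2 * Real.pi : ℂ) * ∫ φ in (0 : ℝ)..(2 * Real.pi), F j φ := by
    intro j
    have h5 := cau1 (hZ j) (sgm R Q + t * I) hr hL0 i
    have h6 : ∀ φ : ℝ, F j φ = ((i.factorial : ℂ) * (L : ℂ) ^ i *
        mlz P (Q ^ θ) (x j).ψ (1 / 2 + t * I)) *
        (Zx (x j) (sgm R Q + t * I + (R / 2 : ℝ) * cexp (φ * I) / L) /
          ((R / 2 : ℝ) * cexp (φ * I)) ^ i) := by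
      intro φ
      rw [hFd, hG]
      simp only [zc']
      ring
    simp only [h6]
    rw [intervalIntegral.integral_const_mul, h5]
    have hLC : (L : ℂ) ≠ 0 := by exact_mod_cast hL0.ne'
    have hfac : (i.factorial : ℂ) ≠ 0 := by exact_mod_cast i.factorial_ne_zero
    have hpi : (Real.pi : ℂ) ≠ 0 := by exact_mod_cast Real.pi_ne_zero
    field_simp
  simp only [hval]
  have hb : ∀ j φ, ‖F j φ‖ ≤ ((i.factorial : ℝ) * L ^ i / (R / 2) ^ i) * ‖G j φ‖ := by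
    intro j φ
    rw [hFd]
    simp only
    rw [norm_mul, norm_div, norm_mul, norm_pow, norm_pow, norm_zc' hr, Complex.norm_real,
      Real.norm_eq_abs, abs_of_pos hL0, Complex.norm_natCast]
  have hMM : ∀ φ, ∑ j, w j * ‖G j φ‖ ^ 2 ≤ C * Q ^ 2 := by
    intro φ
    have h5 := hQ Q hQa (zc' (R / 2) φ / (L : ℂ)) t ht (norm_circ hR hL0 φ)
    rw [hFW] at h5
    exact h5
  refine (msq w F G (fun j => (hwx j).1) hFc hb hMM (by positivity)).trans (le_of_eq ?_)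
  rw [pow_mul]
  ring

end Pool.Agent.H95.CZF
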