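import Pool.Agent.H95.CZF.CW

/-!
# The auxiliary function and the polynomial in the derivatives
-/

set_option autoImplicit false

open NumberField NumberField.InfinitePlace Complex Filter Topology MeasureTheory Set

namespace Pool.Agent.H95.CZF

open Pool.Agent.H28.RC Pool.Agent.H37.CV Pool.Agent.H33.HH Pool.Agent.H33.HC
open Pool.Agent.H65.CZF
open Pool.Agent.H65.CRZ (zc St SZ Zx cA Bm b0 cc)
open Pool.Agent.H65.CRG (LFg VQ cQ kn pm qm CZ)

/-- the difference of powers -/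
theorem pow_sub_one_le (v : ℝ) (h0 : 0 ≤ v) (h2 : v ≤ 2) (i : ℕ) :
    |v ^ i - 1| ≤ i * 2 ^ i * |v - 1| := by
  induction i with
  | zero => simp
  | succ n ih =>
    have e : v ^ (n + 1) - 1 = v * (v ^ n - 1) + (v - 1) := by ring
    have h3 : |v ^ (n + 1) - 1| ≤ 2 * (n * 2 ^ n * |v - 1|) + |v - 1| := by
      rw [e]
      refine (abs_add_le _ _).trans ?_
      rw [abs_mul, abs_of_nonneg h0]
      have h4 : v * |v ^ n - 1| ≤ 2 * (n * 2 ^ n * |v - 1|) :=
        mul_le_mul h2 ih (abs_nonneg _) (by norm_num)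
      linarith
    refine h3.trans ?_
    have h5 : (1 : ℝ) ≤ 2 ^ (n + 1) := one_le_pow₀ (by norm_num)
    have h6 := mul_le_mul_of_nonneg_right h5 (abs_nonneg (v - 1))
    push_cast
    have e2 : ((n : ℝ) + 1) * 2 ^ (n + 1) * |v - 1| =
        2 * (n * 2 ^ n * |v - 1|) + 2 ^ (n + 1) * |v - 1| := by ring
    rw [e2]
    linarith

/-- the coefficients -/
theorem coef {c q : ℂ} {A L B C : ℝ} (hL : 1 ≤ L) (hC : 0 ≤ C) (hB : 0 ≤ B)
    (hLC : 4 * C ≤ L) (hA : |2 * Real.log A - L| ≤ C) (hc : ‖c - q‖ ≤ B / Real.log A) (i : ℕ) :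
    ‖c / ((2 * Real.log A : ℝ) : ℂ) ^ i - q / (L : ℂ) ^ i‖ ≤
      (4 * B * 2 ^ i + ‖q‖ * (i * 2 ^ i * (2 * C))) / L ^ (i + 1) := by
  have hL0 : 0 < L := by linarith
  obtain ⟨hA1, hA2⟩ := abs_le.1 hA
  set a : ℝ := 2 * Real.log A with ha
  have ha0 : L / 2 ≤ a := by linarith
  have hap : 0 < a := by linarith
  set v : ℝ := L / a with hv
  have hv0 : 0 ≤ v := by positivity
  have hv2 : v ≤ 2 := by
    rw [hv, div_le_iff₀ hap]; linarith
  have hv1 : |v - 1| ≤ 2 * C / L := by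
    have e1 : v - 1 = (L - a) / a := by
      rw [hv]; field_simp
    rw [e1, abs_div, abs_of_pos hap, div_le_div_iff₀ hap hL0]
    have e2 : |L - a| ≤ C := by rw [abs_sub_comm]; exact hA
    have e3 : |L - a| * L ≤ C * L := mul_le_mul_of_nonneg_right e2 hL0.le
    nlinarith
  have hLc : (L : ℂ) ≠ 0 := by exact_mod_cast hL0.ne'
  have hac : (a : ℂ) ≠ 0 := by exact_mod_cast hap.ne'
  have e4 : c / (a : ℂ) ^ i - q / (L : ℂ) ^ i =
      ((c - q) * (v : ℂ) ^ i + q * ((v : ℂ) ^ i - 1)) / (L : ℂ) ^ i := by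
    rw [hv]
    push_cast
    rw [div_pow]
    field_simp
    ring
  rw [e4, norm_div, norm_pow, Complex.norm_real, Real.norm_eq_abs, abs_of_pos hL0, pow_succ L i,
    div_le_div_iff₀ (by positivity) (by positivity)]
  have h1 : ‖c - q‖ ≤ 4 * B / L := by
    refine hc.trans ?_
    have hla : 0 < Real.log A := by linarith
    rw [div_le_div_iff₀ hla hL0]
    have : L ≤ 4 * Real.log A := by linarith
    nlinarith
  have h2 : ‖(v : ℂ) ^ i‖ ≤ 2 ^ i := by
    rw [norm_pow, Complex.norm_real, Real.norm_eq_abs, abs_of_nonneg hv0]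
    exact pow_le_pow_left₀ hv0 hv2 i
  have h3 : ‖(v : ℂ) ^ i - 1‖ ≤ i * 2 ^ i * (2 * C / L) := by
    have e5 : (v : ℂ) ^ i - 1 = ((v ^ i - 1 : ℝ) : ℂ) := by push_cast; rfl
    rw [e5, Complex.norm_real, Real.norm_eq_abs]
    exact (pow_sub_one_le v hv0 hv2 i).trans (mul_le_mul_of_nonneg_left hv1 (by positivity))
  have h4 : ‖(c - q) * (v : ℂ) ^ i + q * ((v : ℂ) ^ i - 1)‖ ≤
      4 * B / L * 2 ^ i + ‖q‖ * (i * 2 ^ i * (2 * C / L)) := by
    refine (norm_add_le _ _).trans ?_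
    rw [norm_mul, norm_mul]
    exact add_le_add (mul_le_mul h1 h2 (norm_nonneg _) (by positivity))
      (mul_le_mul_of_nonneg_left h3 (norm_nonneg _))
  have h5 := mul_le_mul_of_nonneg_right h4 (show 0 ≤ L ^ i * L by positivity)
  refine h5.trans (le_of_eq ?_)
  field_simp

theorem pf_LEA (h1 : T_DER) (h2 : T_EPB) (h3 : T_FAM) (h4 : T_LGF)
    (h5 : Pool.Agent.H65.CRG.T_TR) (_h6 : T_LFU) (h7 : T_ENA) : T_LEA := by
  intro K _ _ _ P W k θ e R N m hSP hW hW1 hk hP hR hpm δ T hδ hT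
  obtain ⟨κ₁, Q₁, hκ, hQ₁, hF⟩ := h3 K P W k hW hk
  obtain ⟨c₀, C₂, hc₀, hC₂, hE⟩ := h2 K P
  obtain ⟨cc, _, htr2, htr3⟩ := h5 1 N m hpm
  obtain ⟨B, hB, hB'⟩ := htr3 1 T
  -- the second constant of the conductor
  obtain ⟨C₀, hC₀, hlg⟩ := h4 K κ₁ (nm k + 1) hκ (by
    have : 0 ≤ nm k := by unfold nm; positivity
    linarith)
  set M : ℕ := 2 * N + 1 with hMd
  set V : ℕ → ℝ := fun i => 4 * B * 2 ^ i + ‖(qm N m i : ℂ)‖ * (i * 2 ^ i * (2 * C₀)) with hV
  have hV0 : ∀ i, 0 ≤ V i := fun i => by positivity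
  choose D hD0 hD using fun i => h1 K P W k θ e R hSP hW hW1 hk hP hR i
  choose Q₂ hQ₂ hQ₂' using fun i => hD i T hT
  set Λ : ℝ := M * C₂ ^ 2 * (∑ i ∈ Finset.range M, V i ^ 2 * D i) / δ with hΛ
  have hΛ0 : 0 ≤ Λ := by
    have : 0 ≤ ∑ i ∈ Finset.range M, V i ^ 2 * D i :=
      Finset.sum_nonneg fun i _ => mul_nonneg (sq_nonneg _) (hD0 i).le
    positivity
  set Q₃ : ℝ := ∑ i ∈ Finset.range M, Q₂ i with hQ₃
  have hQ₃' : ∀ i ∈ Finset.range M, Q₂ i ≤ Q₃ := fun i hi =>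
    Finset.single_le_sum (f := Q₂) (fun j _ => by linarith [hQ₂ j]) hi
  refine ⟨max 2 (max Q₃ (max Q₁ (Real.exp (4 + 6 * R + 4 * C₀ + Λ)))), le_max_left _ _, ?_⟩
  intro Q hQQ t ht
  have hQ2 : 2 ≤ Q := (le_max_left _ _).trans hQQ
  have hQ' := (le_max_right _ _).trans hQQ
  have hQa : Q₃ ≤ Q := (le_max_left _ _).trans hQ'
  have hQ'' := (le_max_right _ _).trans hQ'
  have hQb : Q₁ ≤ Q := (le_max_left _ _).trans hQ''
  have hQc : Real.exp (4 + 6 * R + 4 * C₀ + Λ) ≤ Q := (le_max_right _ _).trans hQ''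
  have hl1 : 4 + 6 * R + 4 * C₀ + Λ ≤ Real.log Q := by
    rw [Real.le_log_iff_exp_le (by linarith)]
    exact hQc
  set L : ℝ := Real.log Q with hL
  have hL0 : 0 < L := by linarith
  have hL6 : 6 * R ≤ Real.log Q := by rw [← hL]; linarith
  obtain ⟨ι, hι, w, x, _, hwx, _, hFW⟩ := (hF Q hQb).2
  rw [hFW]
  set s : ℂ := sgm R Q + t * I with hs
  have hre := re_ge hR hL6 t 0 (by
      rw [norm_zero]; rw [← hL]; positivity)
  rw [add_zero, ← hs] at hre
  have him : s.im = t := by rw [hs]; simp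
  have hsh : s + ((R / L : ℝ) : ℂ) = 1 / 2 + t * I := by
    rw [hs]; unfold sgm; rw [← hL]; push_cast; ring
  -- one member of the family
  have hterm : ∀ j : ι, ‖fP P θ R Q N m (x j) s -
      (∑ i ∈ Finset.range M, (qm N m i : ℂ) / (L : ℂ) ^ i * iteratedDeriv i (Zx (x j)) s) *
      (EP P (x j).ψ s * mlz P (Q ^ θ) (x j).ψ (1 / 2 + t * I))‖ ^ 2 ≤
      M * C₂ ^ 2 * ∑ i ∈ Finset.range M, (V i / L ^ (i + 1)) ^ 2 *
        ‖iteratedDeriv i (Zx (x j)) s * mlz P (Q ^ θ) (x j).ψ (1 / 2 + t * I)‖ ^ 2 := by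
    intro j
    obtain ⟨_, _, hne, hlow, hup, _⟩ := hwx j
    have hnk : nm (x j).f ≤ (nm k + 1) * Q := by
      have : (nm k + 1) * Q = nm k * Q + Q := by ring
      linarith
    have hA := hlg Q (x j) (by linarith) hlow hnk
    rw [← hL] at hA
    have hZ : Differentiable ℂ (Zx (x j)) := (zx_ent h7 (x j) hne).1
    have hA0 : 0 ≤ cA K (x j).f := by
      unfold Pool.Agent.H65.CRZ.cA
      have := Real.pi_pos
      positivity
    have hlogA : 1 ≤ Real.log (cA K (x j).f) := by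
      have := (abs_le.1 hA).1
      linarith
    have hApos : 0 < cA K (x j).f := by
      rcases hA0.lt_or_eq with h | h
      · exact h
      · rw [← h, Real.log_zero] at hlogA
        norm_num at hlogA
    have hA2 : 2 ≤ cA K (x j).f := by
      have a1 := Real.add_one_le_exp (Real.log (cA K (x j).f))
      rw [Real.exp_log hApos] at a1
      linarith
    have hVQ := (htr2 (cA K (x j).f) (Zx (x j)) s (by linarith) hZ (by linarith [hre.1])).2.2
    have hco : ∀ i, ‖cc (cA K (x j).f) i s / ((2 * Real.log (cA K (x j).f) : ℝ) : ℂ) ^ i -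
        (qm N m i : ℂ) / (L : ℂ) ^ i‖ ≤ V i / L ^ (i + 1) := by
      intro i
      exact coef (by linarith) hC₀ hB.le (by linarith) hA
        (hB' _ i s hA2 (by linarith [hre.1]) (by linarith [hre.2]) (by rw [him]; exact ht)) i
    set ml : ℂ := mlz P (Q ^ θ) (x j).ψ (1 / 2 + t * I) with hml
    have hd : fP P θ R Q N m (x j) s -
        (∑ i ∈ Finset.range M, (qm N m i : ℂ) / (L : ℂ) ^ i * iteratedDeriv i (Zx (x j)) s) *
        (EP P (x j).ψ s * ml) =
        EP P (x j).ψ s * ∑ i ∈ Finset.range M,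
          (cc (cA K (x j).f) i s / ((2 * Real.log (cA K (x j).f) : ℝ) : ℂ) ^ i -
            (qm N m i : ℂ) / (L : ℂ) ^ i) * (iteratedDeriv i (Zx (x j)) s * ml) := by
      unfold fP
      rw [← hL, hsh, ← hml, hVQ, ← sub_mul, ← Finset.sum_sub_distrib, mul_comm, mul_assoc,
        Finset.mul_sum]
      congr 1
      refine Finset.sum_congr rfl fun i _ => ?_
      ring
    rw [hd, norm_mul, mul_pow]
    obtain ⟨_, _, hb⟩ := hE (x j).ψ (fun I => rcc_norm_le (x j) I)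
    have hEu := (hb s s hre.1 hre.1).2.1
    have hE2 : ‖EP P (x j).ψ s‖ ^ 2 ≤ C₂ ^ 2 := pow_le_pow_left₀ (norm_nonneg _) hEu 2
    have hS : ‖∑ i ∈ Finset.range M,
          (cc (cA K (x j).f) i s / ((2 * Real.log (cA K (x j).f) : ℝ) : ℂ) ^ i -
            (qm N m i : ℂ) / (L : ℂ) ^ i) * (iteratedDeriv i (Zx (x j)) s * ml)‖ ≤
        ∑ i ∈ Finset.range M, V i / L ^ (i + 1) * ‖iteratedDeriv i (Zx (x j)) s * ml‖ := by
      refine (norm_sum_le _ _).trans (Finset.sum_le_sum fun i _ => ?_)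
      rw [norm_mul]
      exact mul_le_mul_of_nonneg_right (hco i) (norm_nonneg _)
    have hS2 := pow_le_pow_left₀ (norm_nonneg _) hS 2
    have hCS := sq_sum_le_card_mul_sum_sq (s := Finset.range M)
      (f := fun i => V i / L ^ (i + 1) * ‖iteratedDeriv i (Zx (x j)) s * ml‖)
    rw [Finset.card_range] at hCS
    have hS3 := hS2.trans hCS
    calc ‖EP P (x j).ψ s‖ ^ 2 * _ ≤ C₂ ^ 2 * (M * ∑ i ∈ Finset.range M,
          (V i / L ^ (i + 1) * ‖iteratedDeriv i (Zx (x j)) s * ml‖) ^ 2) :=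
          mul_le_mul hE2 hS3 (sq_nonneg _) (sq_nonneg _)
      _ = _ := by
          rw [← mul_assoc, mul_comm (C₂ ^ 2) (M : ℝ)]
          congr 1
          refine Finset.sum_congr rfl fun i _ => ?_
          ring
  have hder : ∀ i ∈ Finset.range M, ∑ j, w j * ‖iteratedDeriv i (Zx (x j)) s *
      mlz P (Q ^ θ) (x j).ψ (1 / 2 + t * I)‖ ^ 2 ≤ D i * L ^ (2 * i) * Q ^ 2 := by
    intro i hi
    have h8 := hQ₂' i Q ((hQ₃' i hi).trans hQa) t ht
    rw [hFW] at h8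
    exact h8
  calc _ ≤ ∑ j, w j * (M * C₂ ^ 2 * ∑ i ∈ Finset.range M, (V i / L ^ (i + 1)) ^ 2 *
        ‖iteratedDeriv i (Zx (x j)) s * mlz P (Q ^ θ) (x j).ψ (1 / 2 + t * I)‖ ^ 2) :=
        Finset.sum_le_sum fun j _ => mul_le_mul_of_nonneg_left (hterm j) (hwx j).1
    _ = M * C₂ ^ 2 * ∑ i ∈ Finset.range M, (V i / L ^ (i + 1)) ^ 2 *
        ∑ j, w j * ‖iteratedDeriv i (Zx (x j)) s *
          mlz P (Q ^ θ) (x j).ψ (1 / 2 + t * I)‖ ^ 2 := by
        simp only [Finset.mul_sum]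
        rw [Finset.sum_comm]
        refine Finset.sum_congr rfl fun i _ => Finset.sum_congr rfl fun j _ => ?_
        ring
    _ ≤ M * C₂ ^ 2 * ∑ i ∈ Finset.range M, (V i / L ^ (i + 1)) ^ 2 *
        (D i * L ^ (2 * i) * Q ^ 2) := by
        apply mul_le_mul_of_nonneg_left _ (by positivity)
        exact Finset.sum_le_sum fun i hi =>
          mul_le_mul_of_nonneg_left (hder i hi) (sq_nonneg _)
    _ = (Λ * δ) / L ^ 2 * Q ^ 2 := by
        have e1 : Λ * δ = M * C₂ ^ 2 * ∑ i ∈ Finset.range M, V i ^ 2 * D i := by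
          rw [hΛ]; field_simp
        rw [e1, Finset.mul_sum, Finset.mul_sum, Finset.sum_div, Finset.sum_mul]
        refine Finset.sum_congr rfl fun i _ => ?_
        have hLi : L ^ (2 * i) = (L ^ i) ^ 2 := by rw [← pow_mul, mul_comm]
        rw [hLi]
        field_simp
        try ring
    _ ≤ δ * Q ^ 2 := by
        apply mul_le_mul_of_nonneg_right _ (sq_nonneg _)
        rw [div_le_iff₀ (by positivity)]
        have h9 : Λ ≤ L ^ 2 := by nlinarith
        have h10 := mul_le_mul_of_nonneg_right h9 hδ.le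
        linarith

end Pool.Agent.H95.CZF
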