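import Pool.Agent.H95.CZF.CW

/-!
# The averaged values and the polynomial in the derivatives
-/

set_option autoImplicit false

open NumberField NumberField.InfinitePlace Complex Filter Topology MeasureTheory Set

namespace Pool.Agent.H95.CZF

open Pool.Agent.H28.RC Pool.Agent.H37.CV Pool.Agent.H33.HH Pool.Agent.H33.HC
open Pool.Agent.H65.CZF
open Pool.Agent.H65.CRZ (zc St SZ Zx cA Bm b0 cc)
open Pool.Agent.H65.CRG (LFg VQ cQ kn pm qm CZ)
open Pool.Agent.H22.CRG (ker zc' zc'_ne norm_zc' cont_zc' cont_ker norm_ker_le cau cau1 ker_kn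
  zc'_eq)

theorem pf_LEB (h1 : T_MSF) (h2 : T_EPB) (h3 : T_FAM) (_h4 : Pool.Agent.H65.CRG.T_CK)
    (h5 : T_ENA) : T_LEB := by
  intro K _ _ _ P W k θ e R N m hSP hW hW1 hk hP hR hpm δ T hδ hT
  obtain ⟨C, hC, hM⟩ := msf_T h1 K P W k θ e R hSP hW hW1 hk hP hR
  obtain ⟨κ₁, Q₁, hκ, hQ₁, hF⟩ := h3 K P W k hW hk
  obtain ⟨c, C₂, hc, hC₂, hE⟩ := h2 K P
  have hr : 0 < R / 2 := by positivity
  -- the bound of the kernel
  obtain ⟨Kk, hKk0, hKk⟩ : ∃ Kk : ℝ, 0 ≤ Kk ∧ ∀ φ, ‖kn N m (zc' (R / 2) φ)‖ ≤ Kk := by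
    have hKq : ∀ i < 2 * N + 1, ‖(qm N m i : ℂ)‖ ≤
        ∑ i ∈ Finset.range (2 * N + 1), ‖(qm N m i : ℂ)‖ := fun i hi =>
      Finset.single_le_sum (f := fun i => ‖(qm N m i : ℂ)‖) (fun _ _ => norm_nonneg _)
        (Finset.mem_range.2 hi)
    refine ⟨(∑ i ∈ Finset.range (2 * N + 1), ‖(qm N m i : ℂ)‖) *
      ∑ i ∈ Finset.range (2 * N + 1), (i.factorial : ℝ) / (R / 2) ^ i, by positivity, ?_⟩
    intro φ
    have h6 := norm_ker_le (2 * N + 1) (fun i => (qm N m i : ℂ)) hr hKq φ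
    rwa [ker_kn] at h6
  have hkc : Continuous (fun φ : ℝ => kn N m (zc' (R / 2) φ)) := by
    have := cont_ker (2 * N + 1) (fun i => (qm N m i : ℂ)) hr
    simpa only [ker_kn] using this
  obtain ⟨Q₀, hQ₀, hQ⟩ := hM T hT
  set Λ : ℝ := (C₂ * (R / 2) * Kk) ^ 2 * C / δ with hΛ
  have hΛ0 : 0 ≤ Λ := by positivity
  refine ⟨max Q₀ (max Q₁ (Real.exp (1 + 6 * R + Λ))), hQ₀.trans (le_max_left _ _), ?_⟩
  intro Q hQQ t ht
  have hQa : Q₀ ≤ Q := (le_max_left _ _).trans hQQ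
  have hQb : Q₁ ≤ Q := (le_max_left _ _).trans ((le_max_right _ _).trans hQQ)
  have hQc : Real.exp (1 + 6 * R + Λ) ≤ Q := (le_max_right _ _).trans ((le_max_right _ _).trans hQQ)
  have hl1 : 1 + 6 * R + Λ ≤ Real.log Q := by
    rw [Real.le_log_iff_exp_le (by linarith)]
    exact hQc
  set L : ℝ := Real.log Q with hL
  have hL0 : 0 < L := by linarith
  have hL6 : 6 * R ≤ Real.log Q := by rw [← hL]; linarith
  obtain ⟨ι, hι, w, x, _, hwx, _, hFW⟩ := (hF Q hQb).2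
  rw [hFW]
  have hZ : ∀ j : ι, Differentiable ℂ (Zx (x j)) := fun j =>
    (zx_ent h5 (x j) (hwx j).2.2.1).1
  have hEj : ∀ j : ι, Differentiable ℂ (EP P (x j).ψ) := fun j =>
    (hE (x j).ψ (fun I => rcc_norm_le (x j) I)).1
  set s : ℂ := sgm R Q + t * I with hs
  -- the functions
  set G : ι → ℝ → ℂ := fun j φ => Zx (x j) (s + zc' (R / 2) φ / (L : ℂ)) *
    mlz P (Q ^ θ) (x j).ψ (1 / 2 + t * I) with hG
  set F : ι → ℝ → ℂ := fun j φ => ((EP P (x j).ψ (s + zc' (R / 2) φ / (L : ℂ)) -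
    EP P (x j).ψ s) * kn N m (zc' (R / 2) φ)) * G j φ with hFd
  have hsc : Continuous (fun φ : ℝ => s + zc' (R / 2) φ / (L : ℂ)) :=
    continuous_const.add ((cont_zc' _).div_const _)
  have hGc : ∀ j, Continuous (G j) := by
    intro j
    rw [hG]
    exact ((hZ j).continuous.comp hsc).mul continuous_const
  have hFc : ∀ j, Continuous (F j) := by
    intro j
    rw [hFd]
    exact (((((hEj j).continuous.comp hsc).sub continuous_const)).mul hkc).mul (hGc j)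
  have hval : ∀ j, av P θ R Q N m (x j) t -
      (∑ i ∈ Finset.range (2 * N + 1), (qm N m i : ℂ) / (L : ℂ) ^ i *
        iteratedDeriv i (Zx (x j)) s) *
      (EP P (x j).ψ s * mlz P (Q ^ θ) (x j).ψ (1 / 2 + t * I)) =
      1 / (2 * Real.pi : ℂ) * ∫ φ in (0 : ℝ)..(2 * Real.pi), F j φ := by
    intro j
    have h6 := cau (2 * N + 1) (fun i => (qm N m i : ℂ)) (hZ j) s hr hL0
    simp only [ker_kn] at h6
    rw [← h6]
    have h7 : av P θ R Q N m (x j) t =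
        1 / (2 * Real.pi : ℂ) * ∫ φ in (0 : ℝ)..(2 * Real.pi),
          Zx (x j) (s + zc' (R / 2) φ / (L : ℂ)) * EP P (x j).ψ (s + zc' (R / 2) φ / (L : ℂ)) *
            kn N m (zc' (R / 2) φ) * mlz P (Q ^ θ) (x j).ψ (1 / 2 + t * I) := by
      unfold av ZP
      rw [mul_assoc, ← intervalIntegral.integral_mul_const]
      congr 1
      apply intervalIntegral.integral_congr
      intro φ _
      simp only
      rw [zc'_eq, ← hs, ← hL]
    have h8 : 1 / (2 * Real.pi : ℂ) * (∫ φ in (0 : ℝ)..(2 * Real.pi),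
        Zx (x j) (s + zc' (R / 2) φ / (L : ℂ)) * kn N m (zc' (R / 2) φ)) *
        (EP P (x j).ψ s * mlz P (Q ^ θ) (x j).ψ (1 / 2 + t * I)) =
        1 / (2 * Real.pi : ℂ) * ∫ φ in (0 : ℝ)..(2 * Real.pi),
          Zx (x j) (s + zc' (R / 2) φ / (L : ℂ)) * kn N m (zc' (R / 2) φ) *
            (EP P (x j).ψ s * mlz P (Q ^ θ) (x j).ψ (1 / 2 + t * I)) := by
      rw [intervalIntegral.integral_mul_const, mul_assoc]
    have hci1 : Continuous (fun φ : ℝ => Zx (x j) (s + zc' (R / 2) φ / (L : ℂ)) *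
        EP P (x j).ψ (s + zc' (R / 2) φ / (L : ℂ)) *
            kn N m (zc' (R / 2) φ) * mlz P (Q ^ θ) (x j).ψ (1 / 2 + t * I)) :=
      ((((hZ j).continuous.comp hsc).mul ((hEj j).continuous.comp hsc)).mul hkc).mul
        continuous_const
    have hci2 : Continuous (fun φ : ℝ => Zx (x j) (s + zc' (R / 2) φ / (L : ℂ)) *
        kn N m (zc' (R / 2) φ) *
            (EP P (x j).ψ s * mlz P (Q ^ θ) (x j).ψ (1 / 2 + t * I))) :=
      (((hZ j).continuous.comp hsc).mul hkc).mul continuous_const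
    rw [h7, h8, ← mul_sub, ← intervalIntegral.integral_sub (hci1.intervalIntegrable _ _)
      (hci2.intervalIntegrable _ _)]
    congr 1
    apply intervalIntegral.integral_congr
    intro φ _
    simp only [hFd, hG]
    ring
  simp only [hval]
  have hb : ∀ j φ, ‖F j φ‖ ≤ (C₂ * (R / 2) * Kk / L) * ‖G j φ‖ := by
    intro j φ
    rw [hFd]
    simp only
    rw [norm_mul]
    apply mul_le_mul_of_nonneg_right _ (norm_nonneg _)
    rw [norm_mul]
    obtain ⟨_, _, hb⟩ := hE (x j).ψ (fun I => rcc_norm_le (x j) I)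
    have hr1 := (re_ge hR hL6 t _ (norm_circ hR hL0 φ)).1
    have hr0 := (re_ge hR hL6 t 0 (by
      rw [norm_zero]; rw [← hL]; positivity)).1
    rw [add_zero] at hr0
    have h9 := (hb _ _ hr1 hr0).2.2
    have h10 : ‖(sgm R Q : ℂ) + t * I + zc' (R / 2) φ / (L : ℂ) - (sgm R Q + t * I)‖ ≤
        R / 2 / L := by
      rw [add_sub_cancel_left, norm_div, norm_zc' hr, Complex.norm_real, Real.norm_eq_abs,
        abs_of_pos hL0]
    have h11 : ‖EP P (x j).ψ (s + zc' (R / 2) φ / (L : ℂ)) - EP P (x j).ψ s‖ ≤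
        C₂ * (R / 2 / L) := h9.trans (mul_le_mul_of_nonneg_left h10 hC₂.le)
    calc ‖EP P (x j).ψ (s + zc' (R / 2) φ / (L : ℂ)) - EP P (x j).ψ s‖ *
        ‖kn N m (zc' (R / 2) φ)‖ ≤ (C₂ * (R / 2 / L)) * Kk :=
          mul_le_mul h11 (hKk φ) (norm_nonneg _) (by positivity)
      _ = C₂ * (R / 2) * Kk / L := by ring
  have hMM : ∀ φ, ∑ j, w j * ‖G j φ‖ ^ 2 ≤ C * Q ^ 2 := by
    intro φ
    have h5 := hQ Q hQa (zc' (R / 2) φ / (L : ℂ)) t ht (norm_circ hR hL0 φ)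
    rw [hFW] at h5
    exact h5
  refine (msq w F G (fun j => (hwx j).1) hFc hb hMM (by positivity)).trans ?_
  rw [div_pow, div_mul_eq_mul_div, ← mul_assoc, div_le_iff₀ (by positivity)]
  have h12 : (C₂ * (R / 2) * Kk) ^ 2 * C = Λ * δ := by
    rw [hΛ]; field_simp
  rw [h12]
  have h13 : Λ ≤ L ^ 2 := by nlinarith
  have h14 := mul_le_mul_of_nonneg_right h13 (show 0 ≤ δ * Q ^ 2 by positivity)
  linarith

end Pool.Agent.H95.CZF
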