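import Pool.Agent.H65.CZF.TA

/-!
# The conductor parameter on the logarithmic scale
-/

set_option autoImplicit false

open NumberField NumberField.InfinitePlace Complex Filter Topology MeasureTheory Set

namespace Pool.Agent.H95.CZF

open Pool.Agent.H28.RC Pool.Agent.H37.CV Pool.Agent.H33.HH Pool.Agent.H33.HC
open Pool.Agent.H65.CZF
open Pool.Agent.H65.CRZ (zc St SZ Zx cA Bm b0 cc)
open Pool.Agent.H65.CRG (LFg VQ cQ kn pm qm CZ)

theorem pf_LGF : T_LGF := by
  intro K _ _ _ κ₁ κ₂ hκ₁ hκ₂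
  obtain ⟨D, hDd⟩ : ∃ D : ℝ, D = |(discr K : ℝ)| := ⟨_, rfl⟩
  refine ⟨|Real.log D| + |Real.log κ₁| + |Real.log κ₂| +
    2 * |Real.log (2 * Real.pi)|, by positivity, ?_⟩
  intro Q χ hQ h1 h2
  have hd : 0 < D := by
    rw [hDd, abs_pos]
    exact_mod_cast discr_ne_zero K
  have hn : 0 < nm χ.f := lt_of_lt_of_le (by positivity) h1
  have hpi := Real.pi_pos
  have e1 : 2 * Real.log (cA K χ.f) = Real.log D + Real.log (nm χ.f) -
      2 * Real.log (2 * Real.pi) := by
    unfold Pool.Agent.H65.CRZ.cA cnd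
    rw [← hDd]
    rw [Real.log_div (Real.sqrt_pos.2 (by positivity)).ne' (by positivity),
      Real.log_sqrt (by positivity), Real.log_mul hd.ne' hn.ne']
    ring
  have e2 : Real.log κ₁ + Real.log Q ≤ Real.log (nm χ.f) := by
    rw [← Real.log_mul hκ₁.ne' hQ.ne']
    exact Real.log_le_log (by positivity) h1
  have e3 : Real.log (nm χ.f) ≤ Real.log κ₂ + Real.log Q := by
    rw [← Real.log_mul hκ₂.ne' hQ.ne']
    exact Real.log_le_log hn h2
  rw [e1, abs_le]
  have a1 := abs_le.1 (le_refl |Real.log D|)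
  have a2 := abs_le.1 (le_refl |Real.log κ₁|)
  have a3 := abs_le.1 (le_refl |Real.log κ₂|)
  have a4 := abs_le.1 (le_refl |Real.log (2 * Real.pi)|)
  have b2 := abs_nonneg (Real.log κ₁)
  have b3 := abs_nonneg (Real.log κ₂)
  constructor
  · linarith [a1.1, a2.1, a3.1, a4.2]
  · linarith [a1.2, a2.2, a3.2, a4.1]

end Pool.Agent.H95.CZF
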