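import Pool.Agent.H65.CZF.TA

/-!
# The upper bound for the number of the zeros, uniformly in the field
-/

set_option autoImplicit false

open NumberField NumberField.InfinitePlace Complex Filter Topology MeasureTheory Set

namespace Pool.Agent.H95.CZF

open Pool.Agent.H28.RC Pool.Agent.H37.CV Pool.Agent.H33.HH Pool.Agent.H33.HC
open Pool.Agent.H65.CZF
open Pool.Agent.H65.CRZ (zc St SZ Zx cA Bm b0 cc)
open Pool.Agent.H65.CRG (LFg VQ cQ kn pm qm CZ)

theorem pf_ZUP (h1 : T_LFU) (h2 : Pool.Agent.H65.CRG.T_RV) : T_ZUP := by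
  intro ε hε
  obtain ⟨C, A₁, hC, hA₁, hL⟩ := h1
  obtain ⟨b, hb2, hb⟩ : ∃ b : ℝ, 2 ≤ b ∧ C * (2 : ℝ) ^ (-b) ≤ 1 / 100 := by
    obtain ⟨n, hn⟩ := exists_pow_lt_of_lt_one (show (0 : ℝ) < 1 / (100 * C) by positivity)
      (show (1 / 2 : ℝ) < 1 by norm_num)
    refine ⟨max 2 n, le_max_left _ _, ?_⟩
    have h1 : (2 : ℝ) ^ (-(max 2 (n : ℝ))) ≤ (2 : ℝ) ^ (-(n : ℝ)) :=
      Real.rpow_le_rpow_of_exponent_le (by norm_num) (by linarith [le_max_right 2 (n : ℝ)])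
    have h2 : (2 : ℝ) ^ (-(n : ℝ)) = (1 / 2 : ℝ) ^ n := by
      rw [Real.rpow_neg (by norm_num), Real.rpow_natCast, one_div, inv_pow]
    rw [h2] at h1
    have h3 : C * (2 : ℝ) ^ (-(max 2 (n : ℝ))) ≤ C * (1 / (100 * C)) :=
      mul_le_mul_of_nonneg_left (h1.trans hn.le) (by linarith)
    have h4 : C * (1 / (100 * C)) = 1 / 100 := by
      have : C ≠ 0 := by linarith
      field_simp
    linarith
  obtain ⟨C', hC', hRV⟩ := h2 1 C b hC hb2 hb
  have hpi := Real.pi_pos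
  refine ⟨Real.pi * C' / ε, by positivity, ?_⟩
  intro T hT
  have hT0 : 0 < T := lt_of_lt_of_le (by positivity) hT
  obtain ⟨A₀, hA₀, hR⟩ := hRV T hT0
  refine ⟨max A₀ A₁, le_trans (by linarith) (le_max_left _ _), ?_⟩
  intro K _ _ _ χ hE hA
  obtain ⟨_, hLF⟩ := hL K χ hE ((le_max_right _ _).trans hA)
  obtain ⟨_, hz⟩ := hR (cA K χ.f) ((le_max_left _ _).trans hA) (Zx χ) hLF
  have hlog : 0 ≤ Real.log (cA K χ.f) :=
    Real.log_nonneg (le_trans (by linarith) ((le_max_left _ _).trans hA))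
  have hCT : C' ≤ ε * (T / Real.pi) := by
    rw [div_le_iff₀ hε] at hT
    rw [mul_div_assoc', le_div_iff₀ hpi]
    linarith
  have h5 : C' * Real.log (cA K χ.f) ≤ ε * (T / Real.pi) * Real.log (cA K χ.f) :=
    mul_le_mul_of_nonneg_right hCT hlog
  unfold nz
  linarith

end Pool.Agent.H95.CZF
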