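import Pool.Agent.H65.CZF.TA

/-!
# Mean squares on the left line, with a shift
-/

set_option autoImplicit false

open NumberField NumberField.InfinitePlace Complex Filter Topology MeasureTheory Set

namespace Pool.Agent.H95.CZF

open Pool.Agent.H28.RC Pool.Agent.H37.CV Pool.Agent.H33.HH Pool.Agent.H33.HC
open Pool.Agent.H65.CZF
open Pool.Agent.H65.CRZ (zc St SZ Zx cA Bm b0 cc)
open Pool.Agent.H65.CRG (LFg VQ cQ kn pm qm CZ)

/-- comparison of weighted sums -/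
theorem comb {ι : Type} [Fintype ι] (w F G H : ι → ℝ) (p q A B : ℝ) (hw : ∀ i, 0 ≤ w i)
    (hp : 0 ≤ p) (hq : 0 ≤ q) (h : ∀ i, F i ≤ p * G i + q * H i)
    (hG : ∑ i, w i * G i ≤ A) (hH : ∑ i, w i * H i ≤ B) :
    ∑ i, w i * F i ≤ p * A + q * B := by
  calc ∑ i, w i * F i ≤ ∑ i, w i * (p * G i + q * H i) :=
        Finset.sum_le_sum fun i _ => mul_le_mul_of_nonneg_left (h i) (hw i)
    _ = p * ∑ i, w i * G i + q * ∑ i, w i * H i := by
        rw [Finset.mul_sum, Finset.mul_sum, ← Finset.sum_add_distrib]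
        exact Finset.sum_congr rfl fun i _ => by ring
    _ ≤ p * A + q * B :=
        add_le_add (mul_le_mul_of_nonneg_left hG hp) (mul_le_mul_of_nonneg_left hH hq)

theorem pf_MSF (h1 : T_MSC) (h2 : T_EPB) (h3 : T_FAM) : T_MSF := by
  intro K _ _ _ P W k θ e R hSP hW hW1 hk hP hR
  obtain ⟨C, B, hC, hB, hM⟩ := h1 K P W k θ e R hSP hW hW1 hk hP hR
  obtain ⟨c, C₂, hc, hC₂, hE⟩ := h2 K P
  obtain ⟨κ₁, Q₁, hκ, hQ₁, hF⟩ := h3 K P W k hW hk
  refine ⟨C / c ^ 2 + 1, B, by positivity, hB, ?_⟩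
  intro η hη
  obtain ⟨Q₀, hQ₀, hQ⟩ := hM (η * c ^ 2) (by positivity)
  refine ⟨max Q₀ (max Q₁ (Real.exp (6 * R))), hQ₀.trans (le_max_left _ _), ?_⟩
  intro Q hQQ a u ha
  have hQa : Q₀ ≤ Q := (le_max_left _ _).trans hQQ
  have hQb : Q₁ ≤ Q := (le_max_left _ _).trans ((le_max_right _ _).trans hQQ)
  have hQc : Real.exp (6 * R) ≤ Q := (le_max_right _ _).trans ((le_max_right _ _).trans hQQ)
  have hlog : 6 * R ≤ Real.log Q := by
    rw [Real.le_log_iff_exp_le (by linarith)]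
    exact hQc
  have hl0 : 0 < Real.log Q := by linarith
  have hre : 1 / 4 ≤ ((sgm R Q : ℂ) + u * I + a).re := by
    have h4 : -(R / (2 * Real.log Q)) ≤ a.re := by
      have := (abs_le.1 ((Complex.abs_re_le_norm a).trans ha)).1
      exact this
    have h5 : ((sgm R Q : ℂ) + u * I + a).re = sgm R Q + a.re := by
      simp
    rw [h5]
    unfold sgm
    have h6 : R / Real.log Q ≤ 1 / 6 := by
      rw [div_le_iff₀ hl0]; linarith
    have h7 : R / (2 * Real.log Q) ≤ 1 / 12 := by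
      rw [div_le_iff₀ (by positivity)]; linarith
    linarith
  obtain ⟨ι, hι, w, x, _, hwx, _, hFW⟩ := (hF Q hQb).2
  have key := hQ Q hQa a u ha
  rw [hFW] at key
  rw [hFW]
  have hterm : ∀ i : ι, w i * ‖Zx (x i) (sgm R Q + u * I + a) *
      mlz P (Q ^ θ) (x i).ψ (1 / 2 + u * I)‖ ^ 2 ≤
      (c ^ 2)⁻¹ * (w i * ‖ZP P (x i) (sgm R Q + u * I + a) *
        mlz P (Q ^ θ) (x i).ψ (1 / 2 + u * I)‖ ^ 2) := by
    intro i
    have hψ : ∀ I, ‖(x i).ψ I‖ ≤ 1 := fun I => rcc_norm_le (x i) I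
    obtain ⟨_, _, hb⟩ := hE (x i).ψ hψ
    have hb1 := (hb _ _ hre hre).1
    have h8 : c ^ 2 * ‖Zx (x i) (sgm R Q + u * I + a) *
        mlz P (Q ^ θ) (x i).ψ (1 / 2 + u * I)‖ ^ 2 ≤
        ‖ZP P (x i) (sgm R Q + u * I + a) *
        mlz P (Q ^ θ) (x i).ψ (1 / 2 + u * I)‖ ^ 2 := by
      unfold ZP
      rw [← mul_pow]
      apply pow_le_pow_left₀ (by positivity)
      rw [norm_mul, norm_mul, norm_mul]
      have h9 := mul_le_mul_of_nonneg_right hb1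
        (show 0 ≤ ‖Zx (x i) (sgm R Q + u * I + a)‖ *
          ‖mlz P (Q ^ θ) (x i).ψ (1 / 2 + u * I)‖ by positivity)
      linarith
    have h10 := mul_le_mul_of_nonneg_left h8 (hwx i).1
    have hc2 : 0 < c ^ 2 := by positivity
    calc w i * ‖Zx (x i) (sgm R Q + u * I + a) *
        mlz P (Q ^ θ) (x i).ψ (1 / 2 + u * I)‖ ^ 2 =
        (c ^ 2)⁻¹ * (w i * (c ^ 2 * ‖Zx (x i) (sgm R Q + u * I + a) *
        mlz P (Q ^ θ) (x i).ψ (1 / 2 + u * I)‖ ^ 2)) := by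
          field_simp
      _ ≤ _ := mul_le_mul_of_nonneg_left h10 (by positivity)
  refine (Finset.sum_le_sum fun i _ => hterm i).trans ?_
  rw [← Finset.mul_sum]
  have h11 := mul_le_mul_of_nonneg_left key (show 0 ≤ (c ^ 2)⁻¹ by positivity)
  refine h11.trans ?_
  have h12 : (c ^ 2)⁻¹ * ((C + η * c ^ 2 * (1 + |u|) ^ B) * Q ^ 2) =
      (C / c ^ 2 + η * (1 + |u|) ^ B) * Q ^ 2 := by
    field_simp
  rw [h12]
  apply mul_le_mul_of_nonneg_right _ (sq_nonneg _)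
  linarith

theorem pf_LE2 (h1 : T_LEA) (h2 : T_LEB) (h3 : T_FAM) : T_LE2 := by
  intro K _ _ _ P W k θ e R N m hSP hW hW1 hk hP hR hpm δ T hδ hT
  obtain ⟨Qa, hQa, ha⟩ := h1 K P W k θ e R N m hSP hW hW1 hk hP hR hpm (δ / 4) T (by positivity) hT
  obtain ⟨Qb, hQb, hb⟩ := h2 K P W k θ e R N m hSP hW hW1 hk hP hR hpm (δ / 4) T (by positivity) hT
  obtain ⟨κ₁, Q₁, hκ, hQ₁, hF⟩ := h3 K P W k hW hk
  refine ⟨max Qa (max Qb Q₁), hQa.trans (le_max_left _ _), ?_⟩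
  intro Q hQ t ht
  have k1 := ha Q ((le_max_left _ _).trans hQ) t ht
  have k2 := hb Q ((le_max_left _ _).trans ((le_max_right _ _).trans hQ)) t ht
  have hQ1 : Q₁ ≤ Q := (le_max_right _ _).trans ((le_max_right _ _).trans hQ)
  obtain ⟨ι, hι, w, x, _, hwx, _, hFW⟩ := (hF Q hQ1).2
  rw [hFW] at k1 k2
  rw [hFW]
  have hterm : ∀ (a b c : ℂ), ‖a - b‖ ^ 2 ≤ 2 * ‖a - c‖ ^ 2 + 2 * ‖b - c‖ ^ 2 := by
    intro a b c
    have h4 : ‖a - b‖ ≤ ‖a - c‖ + ‖b - c‖ := by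
      have : a - b = (a - c) - (b - c) := by ring
      rw [this]; exact norm_sub_le _ _
    have h5 : ‖a - b‖ ^ 2 ≤ (‖a - c‖ + ‖b - c‖) ^ 2 :=
      pow_le_pow_left₀ (norm_nonneg _) h4 2
    nlinarith [sq_nonneg (‖a - c‖ - ‖b - c‖)]
  refine (comb w _ _ _ 2 2 _ _ (fun i => (hwx i).1) (by norm_num) (by norm_num)
    (fun i => hterm _ _ _) k1 k2).trans (le_of_eq ?_)
  ring

theorem pf_LEF (h1 : T_LE2) (h2 : T_LEC) (h3 : T_FAM) (h4 : Pool.Agent.H65.CRG.T_Q1) :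
    T_LEF := by
  intro K _ _ _ P W k θ e R N m hSP hW hW1 hk hP hR hpm δ T hδ hT
  -- the main term
  obtain ⟨ak, hak⟩ : ∃ ak : ℝ, ∀ Q, A0 P Q W k = ak * Q ^ 2 :=
    ⟨hc K / wu K * phs k * rk K P * W1 W, fun Q => rfl⟩
  set M : ℝ := |cQ N m R θ * ak| + 1 with hM
  have hM0 : 0 < M := by positivity
  set x : ℝ := min 1 (δ / (4 * M)) with hx
  have hx0 : 0 < x := lt_min one_pos (by positivity)
  have hx1 : x ≤ 1 := min_le_left _ _
  have hxM : x * M ≤ δ / 4 := by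
    have := mul_le_mul_of_nonneg_right (min_le_right 1 (δ / (4 * M))) hM0.le
    have h5 : δ / (4 * M) * M = δ / 4 := by field_simp
    rw [h5] at this
    exact this
  obtain ⟨Qa, hQa, ha⟩ := h1 K P W k θ e R N m hSP hW hW1 hk hP hR hpm (δ * x / 8) T
    (by positivity) hT
  obtain ⟨Qb, hQb, hb⟩ := h2 K P W k θ e R (δ / 8) T N m hSP hW hW1 hk hP hR (by positivity)
    hT hpm
  obtain ⟨κ₁, Q₁, hκ, hQ₁, hF⟩ := h3 K P W k hW hk
  refine ⟨max Qa (max Qb Q₁), hQa.trans (le_max_left _ _), ?_⟩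
  intro Q hQ t ht
  have k1 := ha Q ((le_max_left _ _).trans hQ) t ht
  have k2 := hb Q ((le_max_left _ _).trans ((le_max_right _ _).trans hQ)) t ht
  have hQ1 : Q₁ ≤ Q := (le_max_right _ _).trans ((le_max_right _ _).trans hQ)
  obtain ⟨ι, hι, w, y, _, hwy, _, hFW⟩ := (hF Q hQ1).2
  rw [hFW] at k1 k2
  rw [hFW, hak]
  rw [hak] at k2
  have hterm : ∀ (a b : ℂ), ‖a‖ ^ 2 ≤ (1 + x) * ‖b‖ ^ 2 + (1 + 1 / x) * ‖a - b‖ ^ 2 := by
    intro a b
    have h5 : ‖a‖ ≤ ‖b‖ + ‖a - b‖ := by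
      have : a = b + (a - b) := by ring
      calc ‖a‖ = ‖b + (a - b)‖ := by rw [← this]
        _ ≤ _ := norm_add_le _ _
    have h6 : ‖a‖ ^ 2 ≤ (‖b‖ + ‖a - b‖) ^ 2 := pow_le_pow_left₀ (norm_nonneg _) h5 2
    have h7 : 2 * ‖b‖ * ‖a - b‖ ≤ x * ‖b‖ ^ 2 + 1 / x * ‖a - b‖ ^ 2 := by
      have h8 : 0 ≤ (x * ‖b‖ - ‖a - b‖) ^ 2 / x := by positivity
      have h9 : (x * ‖b‖ - ‖a - b‖) ^ 2 / x =
          x * ‖b‖ ^ 2 + 1 / x * ‖a - b‖ ^ 2 - 2 * ‖b‖ * ‖a - b‖ := by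
        field_simp
        ring
      rw [h9] at h8
      linarith
    nlinarith
  calc _ ≤ (1 + x) * (cQ N m R θ * (ak * Q ^ 2) + δ / 8 * Q ^ 2) +
        (1 + 1 / x) * (δ * x / 8 * Q ^ 2) :=
        comb w _ _ _ (1 + x) (1 + 1 / x) _ _ (fun i => (hwy i).1) (by linarith)
          (by positivity) (fun i => hterm _ _) k2 k1
    _ ≤ cQ N m R θ * (ak * Q ^ 2) + δ * Q ^ 2 := by
        have h10 : (1 + 1 / x) * (δ * x / 8 * Q ^ 2) = δ * (x + 1) / 8 * Q ^ 2 := by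
          field_simp
        rw [h10]
        have h11 : x * (cQ N m R θ * ak) ≤ x * M := by
          apply mul_le_mul_of_nonneg_left _ hx0.le
          linarith [le_abs_self (cQ N m R θ * ak)]
        have hQ2 : 0 ≤ Q ^ 2 := sq_nonneg _
        have h12 : x * (cQ N m R θ * ak) * Q ^ 2 ≤ δ / 4 * Q ^ 2 :=
          mul_le_mul_of_nonneg_right (h11.trans hxM) hQ2
        have h13 : (1 + x) * (δ / 8) * Q ^ 2 ≤ δ / 4 * Q ^ 2 := by
          apply mul_le_mul_of_nonneg_right _ hQ2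
          nlinarith
        have h14 : δ * (x + 1) / 8 * Q ^ 2 ≤ δ / 4 * Q ^ 2 := by
          apply mul_le_mul_of_nonneg_right _ hQ2
          nlinarith
        nlinarith

end Pool.Agent.H95.CZF
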